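import Pool.Agent.H28.Pi.ModEq

/-! Project PI (MP_e49510_nt), module C3: the modular equation of degree three. -/

set_option autoImplicit false

namespace Pool.Agent.H28.Pi

open Pool.Agent.H22.Pi Pool.Agent.H22.Pi.TK
open Complex Filter Asymptotics
open scoped Real Topology

/-- numerator of the degree three relation -/
private def G3 (q a b : ℂ) : ℂ :=
  (q ^ 4 * b ^ 2 + a ^ 2 + 3 * (q ^ 2 * (a * b))) ^ 2
    - a * b * (1 + q ^ 8 * (a * b) ^ 2 + 2 * (q ^ 4 * (a * b)))
    + 6 * (q * (a * b) * (q ^ 4 * (a ^ 2 * b) + q ^ 6 * (a * b ^ 2) + q ^ 2 * b + a))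
    - 9 * (q ^ 2 * (a * b) * (q ^ 4 * b ^ 2 + a ^ 2 + 2 * (q ^ 2 * (a * b))))

private lemma G3_isBigO (hQ : QsStmt) :
    (fun q => G3 q (aq q) (aq (q ^ 3))) =O[𝓝 0] (fun q : ℂ => q ^ (4 + 1)) := by
  have ha : TEq 5 aq [1, -2, 1, -2, 4] :=
    ((TEq_aq hQ).mono (by norm_num)).of_take (by decide)
  have hb : TEq 5 (fun q => aq (q ^ 3)) [1, 0, 0, -2, 0] :=
    (ha.comp_pow 3 (by norm_num)).of_take (by decide)
  have hq := TEq.id 5
  have hab := ha.mul hb
  have h1 := TEq.const 5 1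
  have hA := (h1.add ((hq.pow 8).mul (hab.pow 2))).add (((hq.pow 4).mul hab).smul 2)
  have hB := ((((hq.pow 4).mul ((ha.pow 2).mul hb)).add
    ((hq.pow 6).mul (ha.mul (hb.pow 2)))).add ((hq.pow 2).mul hb)).add ha
  have hC := (((hq.pow 4).mul (hb.pow 2)).add (ha.pow 2)).add (((hq.pow 2).mul hab).smul 2)
  have hD := (((hq.pow 4).mul (hb.pow 2)).add (ha.pow 2)).add (((hq.pow 2).mul hab).smul 3)
  have hG := (((hD.pow 2).sub (hab.mul hA)).add (((hq.mul hab).mul hB).smul 6)).sub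
    ((((hq.pow 2).mul hab).mul hC).smul 9)
  refine (hG.isBigO (by decide)).congr' (Eventually.of_forall fun q => ?_) EventuallyEq.rfl
  simp only [G3]
  push_cast
  ring

theorem c3 (hI : InvPStmt 3) (hG : GlStmt) (hQ : QsStmt) : Mod3Stmt := by
  have hv := vanish 3 (by norm_num) (by decide +kernel) hI hG hQ
    (fun A B C => (C + 1) ^ 2 - (A - 6 * B + 9 * C)) (by fun_prop)
    (lim_of_isBigO hQ 3 (by norm_num) 4 2 _ (fun q => G3 q (aq q) (aq (q ^ 3))) (by
      intro z hz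
      have h1 := hQ.1 z hz
      have h2 := hQ.1 _ (im_mul_pos 3 (by norm_num) hz)
      have h3 : cexp (2 * π * I * ((3 : ℕ) * z)) = nq z ^ 3 := nq_mul 3 z
      rw [h3] at h2
      rw [show cexp (2 * π * I * z) = nq z from rfl] at h1
      have e1 : aq (nq z) ≠ 0 := hQ.2.2.2.2.2.2.1 _ (nq_norm_lt hz)
      have e2 : aq (nq z ^ 3) ≠ 0 :=
        hQ.2.2.2.2.2.2.1 _ (norm_pow_lt (nq_norm_lt hz) 3 (by norm_num))
      have e3 := nq_ne z
      simp only [h1, h2]
      generalize aq (nq z) = a at *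
      generalize aq (nq z ^ 3) = b at *
      generalize nq z = q at *
      simp only [Af, Bf, Cf, G3]
      field_simp
      ring) (G3_isBigO hQ))
  have hne : ¬ ∀ y : ℝ, 0 < y →
      (fun z => -pf 3 z - (rf 3 z) ^ 2 + 3 * rf 3 z - 1) (I * y) = 0 := by
    intro h
    have hp := pf_tendsto hQ 3 (by norm_num)
    have hr := rf_tendsto hQ 2 (by norm_num)
    have hu := uy_tendsto
    have hT := (((hp.neg).sub (hr.pow 2)).add (((hu.pow 2).mul hr).const_mul 3)).sub (hu.pow 4)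
    have hT' : Tendsto (fun _ : ℝ => (0 : ℂ)) atTop
        (𝓝 (-1 - 1 ^ 2 + 3 * (0 ^ 2 * 1) - 0 ^ 4)) := by
      refine hT.congr' ?_
      filter_upwards [eventually_gt_atTop (0 : ℝ)] with y hy
      have h0 := h y hy
      simp only at h0
      linear_combination (uy y) ^ 4 * h0
    have h5 := tendsto_nhds_unique hT' tendsto_const_nhds
    norm_num at h5
  have hf := factor (fun z => pf 3 z - (rf 3 z) ^ 2 - 3 * rf 3 z - 1)
    (fun z => -pf 3 z - (rf 3 z) ^ 2 + 3 * rf 3 z - 1)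
    ((((pf_diff hQ 3 (by norm_num)).sub ((rf_diff hQ 3 (by norm_num)).pow 2)).sub
      ((rf_diff hQ 3 (by norm_num)).const_mul 3)).sub (differentiableOn_const _))
    ((((pf_diff hQ 3 (by norm_num)).neg.sub ((rf_diff hQ 3 (by norm_num)).pow 2)).add
      ((rf_diff hQ 3 (by norm_num)).const_mul 3)).sub (differentiableOn_const _))
    (by
      intro z hz
      have h1 := hv z hz
      rw [Af_eq hQ 3 (by norm_num) hz, Bf_eq hQ 3 (by norm_num) hz,
        Cf_eq hQ 3 (by norm_num) hz] at h1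
      linear_combination h1) hne
  intro z hz
  linear_combination hf z hz

end Pool.Agent.H28.Pi
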