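import Pool.Agent.H28.Pi.ModEq

/-! Project PI (MP_e49510_nt), module C5: the modular equation of degree five. -/

set_option autoImplicit false

namespace Pool.Agent.H28.Pi

open Pool.Agent.H22.Pi Pool.Agent.H22.Pi.TK
open Complex Filter Asymptotics
open scoped Real Topology

private def A5 (q a b : ℂ) : ℂ := 1 + q ^ 12 * (a * b) ^ 2 + 2 * (q ^ 6 * (a * b))
private def B5 (q a b : ℂ) : ℂ :=
  q ^ 6 * (a ^ 2 * b) + q ^ 10 * (a * b ^ 2) + q ^ 4 * b + a
private def C5' (q a b : ℂ) : ℂ := q ^ 8 * b ^ 2 + a ^ 2 + 2 * (q ^ 4 * (a * b))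

/-- numerator of the degree five relation -/
private def G5 (q a b : ℂ) : ℂ :=
  a * b * (A5 q a b + (-5) * (q * B5 q a b) + 18 * (q ^ 6 * (a * b))) ^ 2
    - (100 * (q ^ 6 * (a * b) ^ 2 * A5 q a b) + (C5' q a b) ^ 3
      + 169 * (q ^ 8 * (a * b) ^ 2 * C5' q a b)
      + 20 * (q ^ 3 * (a * b) * (B5 q a b * C5' q a b))
      + (-260) * (q ^ 7 * (a * b) ^ 2 * B5 q a b)
      + (-26) * (q ^ 4 * (a * b) * (C5' q a b) ^ 2))

private lemma G5_isBigO (hQ : QsStmt) :
    (fun q => G5 q (aq q) (aq (q ^ 5))) =O[𝓝 0] (fun q : ℂ => q ^ (12 + 1)) := by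
  have ha : TEq 13 aq [1, -2, 1, -2, 4, -4, 5, -6, 9, -12, 13, -16, 21] :=
    ((TEq_aq hQ).mono (by norm_num)).of_take (by decide)
  have hb : TEq 13 (fun q => aq (q ^ 5)) [1, 0, 0, 0, 0, -2, 0, 0, 0, 0, 1, 0, 0] :=
    (ha.comp_pow 5 (by norm_num)).of_take (by decide)
  have hq := TEq.id 13
  have hab := ha.mul hb
  have h1 := TEq.const 13 1
  have hA := (h1.add ((hq.pow 12).mul (hab.pow 2))).add (((hq.pow 6).mul hab).smul 2)
  have hB := ((((hq.pow 6).mul ((ha.pow 2).mul hb)).add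
    ((hq.pow 10).mul (ha.mul (hb.pow 2)))).add ((hq.pow 4).mul hb)).add ha
  have hC := (((hq.pow 8).mul (hb.pow 2)).add (ha.pow 2)).add (((hq.pow 4).mul hab).smul 2)
  have hL := (hA.add ((hq.mul hB).smul (-5))).add (((hq.pow 6).mul hab).smul 18)
  have hR := (((((((hq.pow 6).mul (hab.pow 2)).mul hA).smul 100).add (hC.pow 3)).add
    ((((hq.pow 8).mul (hab.pow 2)).mul hC).smul 169)).add
    ((((hq.pow 3).mul hab).mul (hB.mul hC)).smul 20)).add
    ((((hq.pow 7).mul (hab.pow 2)).mul hB).smul (-260))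
  have hG := (hab.mul (hL.pow 2)).sub (hR.add ((((hq.pow 4).mul hab).mul (hC.pow 2)).smul (-26)))
  refine (hG.isBigO (by decide +kernel)).congr' (Eventually.of_forall fun q => ?_)
    EventuallyEq.rfl
  simp only [G5, A5, B5, C5']
  push_cast
  ring

theorem c5 (hI : InvPStmt 5) (hG : GlStmt) (hQ : QsStmt) : Mod5Stmt := by
  have hv := vanish 5 (by norm_num) (by decide +kernel) hI hG hQ
    (fun A B C => (A - 5 * B + 18) ^ 2
      - (100 * A + C ^ 3 + 169 * C + 20 * (B * C) - 260 * B - 26 * C ^ 2)) (by fun_prop)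
    (lim_of_isBigO hQ 5 (by norm_num) 12 3 _ (fun q => G5 q (aq q) (aq (q ^ 5))) (by
      intro z hz
      have h1 := hQ.1 z hz
      have h2 := hQ.1 _ (im_mul_pos 5 (by norm_num) hz)
      have h3 : cexp (2 * π * I * ((5 : ℕ) * z)) = nq z ^ 5 := nq_mul 5 z
      rw [h3] at h2
      rw [show cexp (2 * π * I * z) = nq z from rfl] at h1
      have e1 : aq (nq z) ≠ 0 := hQ.2.2.2.2.2.2.1 _ (nq_norm_lt hz)
      have e2 : aq (nq z ^ 5) ≠ 0 :=
        hQ.2.2.2.2.2.2.1 _ (norm_pow_lt (nq_norm_lt hz) 5 (by norm_num))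
      have e3 := nq_ne z
      simp only [h1, h2]
      generalize aq (nq z) = a at *
      generalize aq (nq z ^ 5) = b at *
      generalize nq z = q at *
      have hA : Af (q * a) (q ^ 5 * b) * (q ^ 6 * (a * b)) = A5 q a b := by
        simp only [Af, A5]; field_simp; ring
      have hB : Bf (q * a) (q ^ 5 * b) * (q ^ 5 * (a * b)) = B5 q a b := by
        simp only [Bf, B5]; field_simp
      have hC : Cf (q * a) (q ^ 5 * b) * (q ^ 4 * (a * b)) = C5' q a b := by
        simp only [Cf, C5']; field_simp; ring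
      simp only [G5, ← hA, ← hB, ← hC]
      ring) (G5_isBigO hQ))
  have hne : ¬ ∀ y : ℝ, 0 < y →
      (fun z => (pf 5 z) ^ 2 - 5 * (pf 5 z * rf 5 z) + 10 * pf 5 z + (rf 5 z) ^ 3
        - 13 * rf 5 z + 18) (I * y) = 0 := by
    intro h
    have hp := pf_tendsto hQ 5 (by norm_num)
    have hr := rf_tendsto hQ 4 (by norm_num)
    have hu := uy_tendsto
    have hT := ((((((hp.pow 2).sub (((hu.pow 2).mul (hp.mul hr)).const_mul 5)).add
      (((hu.pow 6).mul hp).const_mul 10)).add (hr.pow 3)).sub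
      (((hu.pow 8).mul hr).const_mul 13))).add ((hu.pow 12).const_mul 18)
    have hT' : Tendsto (fun _ : ℝ => (0 : ℂ)) atTop
        (𝓝 (1 ^ 2 - 5 * (0 ^ 2 * (1 * 1)) + 10 * (0 ^ 6 * 1) + 1 ^ 3 - 13 * (0 ^ 8 * 1)
          + 18 * 0 ^ 12)) := by
      refine hT.congr' ?_
      filter_upwards [eventually_gt_atTop (0 : ℝ)] with y hy
      have h0 := h y hy
      simp only at h0
      linear_combination (uy y) ^ 12 * h0
    have h5 := tendsto_nhds_unique hT' tendsto_const_nhds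
    norm_num at h5
  have hP := pf_diff hQ 5 (by norm_num)
  have hR := rf_diff hQ 5 (by norm_num)
  have hf := factor (fun z => (pf 5 z) ^ 2 - 5 * (pf 5 z * rf 5 z) - 10 * pf 5 z - (rf 5 z) ^ 3
      + 13 * rf 5 z + 18)
    (fun z => (pf 5 z) ^ 2 - 5 * (pf 5 z * rf 5 z) + 10 * pf 5 z + (rf 5 z) ^ 3
        - 13 * rf 5 z + 18)
    ((((((hP.pow 2).sub ((hP.mul hR).const_mul 5)).sub (hP.const_mul 10)).sub
      (hR.pow 3)).add (hR.const_mul 13)).add (differentiableOn_const _))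
    ((((((hP.pow 2).sub ((hP.mul hR).const_mul 5)).add (hP.const_mul 10)).add
      (hR.pow 3)).sub (hR.const_mul 13)).add (differentiableOn_const _))
    (by
      intro z hz
      have h1 := hv z hz
      rw [Af_eq hQ 5 (by norm_num) hz, Bf_eq hQ 5 (by norm_num) hz,
        Cf_eq hQ 5 (by norm_num) hz] at h1
      linear_combination h1) hne
  intro z hz
  linear_combination hf z hz

end Pool.Agent.H28.Pi
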