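import Pool.Agent.H22.Pi.Defs
import Pool.Agent.H22.Pi.TK

/-!
Common part of modules C3 and C5 of project PI (MP_e49510_nt): the vanishing of a rational
function of `w(z)`, `w(kz)` which is invariant and tends to zero at infinity, and the
asymptotics of `p`, `r` along the imaginary axis.
-/

set_option autoImplicit false

namespace Pool.Agent.H28.Pi

open Pool.Agent.H22.Pi Pool.Agent.H22.Pi.TK
open Complex Filter Asymptotics
open scoped Real Topology

/-- The nome. -/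
noncomputable def nq (z : ℂ) : ℂ := cexp (2 * π * I * z)

/-- The upper half plane as a subset of `ℂ`. -/
def HH : Set ℂ := {z | 0 < z.im}

lemma isOpen_HH : IsOpen HH := isOpen_lt continuous_const continuous_im

lemma isPreconnected_HH : IsPreconnected HH :=
  (convex_halfSpace_im_gt 0).isPreconnected

lemma im_mul_pos (k : ℕ) (hk : 0 < k) {z : ℂ} (hz : 0 < z.im) : 0 < ((k : ℂ) * z).im := by
  have h : ((k : ℂ) * z).im = (k : ℝ) * z.im := by
    simp [Complex.mul_im]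
  rw [h]
  have : (0 : ℝ) < k := by exact_mod_cast hk
  positivity

lemma nq_mul (k : ℕ) (z : ℂ) : nq ((k : ℂ) * z) = nq z ^ k := by
  rw [nq, nq, ← Complex.exp_nat_mul]
  congr 1; ring

lemma nq_norm_lt {z : ℂ} (hz : 0 < z.im) : ‖nq z‖ < 1 := by
  rw [nq, Complex.norm_exp]
  have : (2 * π * I * z).re = -(2 * π * z.im) := by simp
  rw [this, Real.exp_lt_one_iff]
  have := Real.pi_pos
  have : 0 < 2 * π * z.im := by positivity
  linarith

lemma nq_ne (z : ℂ) : nq z ≠ 0 := Complex.exp_ne_zero _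

lemma nq_tendsto : Tendsto nq (comap Complex.im atTop) (𝓝[≠] 0) := by
  have h := Function.Periodic.qParam_tendsto (h := 1) one_pos
  refine h.congr fun z => ?_
  simp [Function.Periodic.qParam, nq]

lemma differentiable_nq : Differentiable ℂ nq := by
  unfold nq
  fun_prop

lemma wf_ne (hQ : QsStmt) {z : ℂ} (hz : 0 < z.im) : wf z ≠ 0 := by
  obtain ⟨h1, -, -, -, -, -, h2, -, -, -⟩ := hQ
  rw [h1 z hz]
  exact mul_ne_zero (nq_ne z) (h2 _ (nq_norm_lt hz))

lemma wf_diff (hQ : QsStmt) : DifferentiableOn ℂ wf HH := by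
  obtain ⟨h1, -, -, -, -, h3, h2, -, -, -⟩ := hQ
  have h4 : DifferentiableOn ℂ (fun z => nq z * aq (nq z)) HH := by
    refine differentiable_nq.differentiableOn.mul ?_
    refine h3.comp differentiable_nq.differentiableOn ?_
    intro z hz
    simpa using nq_norm_lt hz
  exact h4.congr fun z hz => h1 z hz

lemma wf_eq_sf (z : ℂ) : wf z = (sf z ^ 2)⁻¹ := by
  rw [wf, sf, ← inv_pow, inv_div]

lemma sf_ne (hQ : QsStmt) {z : ℂ} (hz : 0 < z.im) : sf z ≠ 0 := by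
  intro h
  apply wf_ne hQ hz
  rw [wf_eq_sf, h]; simp

/-- The analytic factor of `s`. -/
noncomputable def sg (q : ℂ) : ℂ := Eu (q ^ 2) * Eu (q ^ 13) / (Eu q * Eu (q ^ 26))

lemma norm_pow_lt {q : ℂ} (hq : ‖q‖ < 1) (n : ℕ) (hn : n ≠ 0) : ‖q ^ n‖ < 1 := by
  rw [norm_pow]; exact pow_lt_one₀ (norm_nonneg _) hq hn

lemma Eu_pow_diff (hQ : QsStmt) (n : ℕ) (hn : n ≠ 0) :
    DifferentiableOn ℂ (fun q => Eu (q ^ n)) (Metric.ball 0 1) := by
  obtain ⟨-, -, h, -, -, -, -, -, -, -⟩ := hQ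
  refine h.comp (by fun_prop) ?_
  intro q hq
  have : ‖q‖ < 1 := by simpa using hq
  simpa using norm_pow_lt this n hn

lemma sg_diff (hQ : QsStmt) : DifferentiableOn ℂ sg (Metric.ball 0 1) := by
  have h1 := Eu_pow_diff hQ
  have h0 := hQ.2.2.1
  have hne := hQ.2.2.2.1
  refine ((h1 2 (by norm_num)).mul (h1 13 (by norm_num))).div
    (h0.mul (h1 26 (by norm_num))) ?_
  intro q hq
  have : ‖q‖ < 1 := by simpa using hq
  exact mul_ne_zero (hne q this) (hne _ (norm_pow_lt this 26 (by norm_num)))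

lemma sg_zero (hQ : QsStmt) : sg 0 = 1 := by
  obtain ⟨-, -, -, -, h, -, -, -, -, -⟩ := hQ
  simp [sg, h]

lemma sf_eq (hQ : QsStmt) {z : ℂ} (hz : 0 < z.im) :
    sf z = cexp (-(π * I * z)) * sg (nq z) := hQ.2.1 z hz

lemma sf_diff (hQ : QsStmt) : DifferentiableOn ℂ sf HH := by
  have h4 : DifferentiableOn ℂ (fun z => cexp (-(π * I * z)) * sg (nq z)) HH := by
    refine DifferentiableOn.mul (by fun_prop) ?_
    refine (sg_diff hQ).comp differentiable_nq.differentiableOn ?_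
    intro z hz
    simpa using nq_norm_lt hz
  exact h4.congr fun z hz => sf_eq hQ hz

/-- The symmetric functions. -/
noncomputable def Af (w W : ℂ) : ℂ := w * W + (w * W)⁻¹ + 2
noncomputable def Bf (w W : ℂ) : ℂ := w + W + w⁻¹ + W⁻¹
noncomputable def Cf (w W : ℂ) : ℂ := w / W + W / w + 2

lemma Af_swap (w W : ℂ) : Af W w = Af w W := by simp only [Af]; ring
lemma Bf_swap (w W : ℂ) : Bf W w = Bf w W := by simp only [Bf]; ring
lemma Cf_swap (w W : ℂ) : Cf W w = Cf w W := by simp only [Cf]; ring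
lemma Af_inv (w W : ℂ) : Af w⁻¹ W⁻¹ = Af w W := by
  simp only [Af, mul_inv, inv_inv]; ring
lemma Bf_inv (w W : ℂ) : Bf w⁻¹ W⁻¹ = Bf w W := by
  simp only [Bf, inv_inv]; ring
lemma Cf_inv (w W : ℂ) : Cf w⁻¹ W⁻¹ = Cf w W := by
  simp only [Cf, inv_inv, div_eq_mul_inv]; ring

/-- A polynomial in the three symmetric functions of `w(z)`, `w(kz)` which tends to zero at
infinity vanishes. -/
lemma vanish (k : ℕ) (hk : 0 < k) (hsq : Squarefree (26 * k)) (hI : InvPStmt k) (hG : GlStmt)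
    (hQ : QsStmt) (Φ : ℂ → ℂ → ℂ → ℂ)
    (hΦ : Differentiable ℂ (fun p : ℂ × ℂ × ℂ => Φ p.1 p.2.1 p.2.2))
    (hlim : Tendsto (fun z => Φ (Af (wf z) (wf (k * z))) (Bf (wf z) (wf (k * z)))
      (Cf (wf z) (wf (k * z)))) (comap Complex.im atTop) (𝓝 0)) :
    ∀ z : ℂ, 0 < z.im → Φ (Af (wf z) (wf (k * z))) (Bf (wf z) (wf (k * z)))
      (Cf (wf z) (wf (k * z))) = 0 := by
  have hmap : Set.MapsTo (fun z : ℂ => (k : ℂ) * z) HH HH := fun z hz => im_mul_pos k hk hz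
  have hw := wf_diff hQ
  have hW : DifferentiableOn ℂ (fun z => wf (k * z)) HH := hw.comp (by fun_prop) hmap
  have hwn : ∀ z ∈ HH, wf z ≠ 0 := fun z hz => wf_ne hQ hz
  have hWn : ∀ z ∈ HH, wf (k * z) ≠ 0 := fun z hz => wf_ne hQ (hmap hz)
  have hA : DifferentiableOn ℂ (fun z => Af (wf z) (wf (k * z))) HH :=
    ((hw.mul hW).add ((hw.mul hW).inv fun z hz => mul_ne_zero (hwn z hz) (hWn z hz))).add
      (differentiableOn_const _)
  have hB : DifferentiableOn ℂ (fun z => Bf (wf z) (wf (k * z))) HH :=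
    ((hw.add hW).add (hw.inv hwn)).add (hW.inv hWn)
  have hC : DifferentiableOn ℂ (fun z => Cf (wf z) (wf (k * z))) HH :=
    ((hw.div hW hWn).add (hW.div hw hwn)).add (differentiableOn_const _)
  refine hG (26 * k) hsq (fun z => Φ (Af (wf z) (wf (k * z))) (Bf (wf z) (wf (k * z)))
      (Cf (wf z) (wf (k * z)))) ?_ ?_ hlim
  · exact hΦ.comp_differentiableOn (hA.prodMk (hB.prodMk hC))
  · intro e a b c d he hc hdet z hz
    rcases hI e a b c d he hc hdet with h | h | h | h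
    · obtain ⟨h1, h2⟩ := h z hz
      simp only [h1, h2]
    · obtain ⟨h1, h2⟩ := h z hz
      simp only [h1, h2, Af_inv, Bf_inv, Cf_inv]
    · obtain ⟨h1, h2⟩ := h z hz
      simp only [h1, h2]
      rw [Af_swap, Bf_swap, Cf_swap]
    · obtain ⟨h1, h2⟩ := h z hz
      simp only [h1, h2, Af_inv, Bf_inv, Cf_inv]
      rw [Af_swap, Bf_swap, Cf_swap]

/-- The limit at infinity from the `q`-expansion. -/
lemma lim_of_isBigO (hQ : QsStmt) (k : ℕ) (hk : 0 < k) (m n : ℕ) (Fz G : ℂ → ℂ)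
    (hF : ∀ z : ℂ, 0 < z.im → Fz z * (nq z ^ m * (aq (nq z) * aq (nq z ^ k)) ^ n) = G (nq z))
    (hO : G =O[𝓝 0] (fun q : ℂ => q ^ (m + 1))) :
    Tendsto Fz (comap Complex.im atTop) (𝓝 0) := by
  obtain ⟨-, -, -, -, -, h3, h2, h1, -, -⟩ := hQ
  have hc : ContinuousAt aq 0 :=
    (h3.differentiableAt (Metric.ball_mem_nhds 0 one_pos)).continuousAt
  have hk0 : (0 : ℂ) ^ k = 0 := zero_pow hk.ne'
  have hck : ContinuousAt (fun q : ℂ => aq (q ^ k)) 0 := by
    have hc' : ContinuousAt aq ((fun q : ℂ => q ^ k) 0) := by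
      simp only [hk0]; exact hc
    exact ContinuousAt.comp (f := fun q : ℂ => q ^ k) hc' (continuous_pow k).continuousAt
  have hT : Tendsto (fun q : ℂ => ((aq q * aq (q ^ k)) ^ n)⁻¹) (𝓝[≠] 0) (𝓝 1) := by
    have h5 : ContinuousAt (fun q : ℂ => ((aq q * aq (q ^ k)) ^ n)⁻¹) 0 := by
      refine ContinuousAt.inv₀ ((hc.mul hck).pow n) ?_
      simp [hk0, h1]
    have h6 := h5.tendsto
    simp only [hk0, h1, mul_one, one_pow, inv_one] at h6
    exact h6.mono_left nhdsWithin_le_nhds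
  have h7 := (tendsto_div_pow hO).mul hT
  rw [mul_one] at h7
  have h8 := h7.comp nq_tendsto
  refine h8.congr' ?_
  have h9 : ∀ᶠ z in comap Complex.im atTop, 0 < z.im :=
    (eventually_gt_atTop (0 : ℝ)).comap _
  filter_upwards [h9] with z hz
  simp only [Function.comp]
  rw [← hF z hz]
  have e1 : nq z ^ m ≠ 0 := pow_ne_zero _ (nq_ne z)
  have e2 : (aq (nq z) * aq (nq z ^ k)) ^ n ≠ 0 :=
    pow_ne_zero _ (mul_ne_zero (h2 _ (nq_norm_lt hz))
      (h2 _ (norm_pow_lt (nq_norm_lt hz) k hk.ne')))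
  field_simp

/-- The list of `a(q)`. -/
def la : List ℤ := [1, -2, 1, -2, 4, -4, 5, -6, 9, -12, 13, -16, 21, -24, 25]

lemma TEq_aq (hQ : QsStmt) : TEq 15 aq la := by
  obtain ⟨-, -, -, -, -, h3, -, -, h, -⟩ := hQ
  refine ⟨(h3.analyticAt (Metric.ball_mem_nhds 0 one_pos)), ?_⟩
  refine h.congr' (Eventually.of_forall fun q => ?_) EventuallyEq.rfl
  simp only [la, ev_cons, ev_nil, alpha]
  push_cast
  ring

/-! ### Behaviour of `p`, `r` along the imaginary axis -/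

/-- the variable `u = exp(-pi y)` -/
noncomputable def uy (y : ℝ) : ℂ := cexp (-(π * y : ℝ))

lemma uy_tendsto : Tendsto uy atTop (𝓝 0) := by
  have h : Tendsto (fun y : ℝ => Real.exp (-(π * y))) atTop (𝓝 0) := by
    refine Real.tendsto_exp_neg_atTop_nhds_zero.comp ?_
    exact tendsto_id.const_mul_atTop Real.pi_pos
  have h2 := (continuous_ofReal.tendsto (0 : ℝ)).comp h
  simp only [ofReal_zero] at h2
  refine h2.congr fun y => ?_
  simp [uy]

lemma uy_ne (y : ℝ) : uy y ≠ 0 := Complex.exp_ne_zero _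

lemma exp_Iy (y : ℝ) : cexp (-(π * I * (I * y))) = (uy y)⁻¹ := by
  rw [uy, ← Complex.exp_neg]
  congr 1
  push_cast
  linear_combination (-(π : ℂ) * y) * I_sq

lemma nq_Iy (y : ℝ) : nq (I * y) = uy y ^ 2 := by
  rw [nq, uy, ← Complex.exp_nat_mul]
  congr 1
  push_cast
  linear_combination (2 * (π : ℂ) * y) * I_sq

lemma sf_Iy (hQ : QsStmt) {y : ℝ} (hy : 0 < y) : sf (I * y) = (uy y)⁻¹ * sg (uy y ^ 2) := by
  rw [sf_eq hQ (by simpa using hy), exp_Iy, nq_Iy]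

lemma uy_mul (k : ℕ) (y : ℝ) : uy (k * y) = uy y ^ k := by
  rw [uy, uy, ← Complex.exp_nat_mul]
  congr 1; push_cast; ring

lemma sf_kIy (hQ : QsStmt) (k : ℕ) (hk : 0 < k) {y : ℝ} (hy : 0 < y) :
    sf (k * (I * y)) = (uy y ^ k)⁻¹ * sg ((uy y ^ k) ^ 2) := by
  have h : (k : ℂ) * (I * y) = I * ((k * y : ℝ) : ℂ) := by push_cast; ring
  have hk' : (0 : ℝ) < k := by exact_mod_cast hk
  rw [h, sf_Iy hQ (by positivity), uy_mul]

lemma sg_tendsto (hQ : QsStmt) (k : ℕ) (hk : 0 < k) :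
    Tendsto (fun y : ℝ => sg ((uy y ^ k) ^ 2)) atTop (𝓝 1) := by
  have h1 : ContinuousAt sg 0 :=
    ((sg_diff hQ).differentiableAt (Metric.ball_mem_nhds 0 one_pos)).continuousAt
  have h2 := h1.tendsto
  rw [sg_zero hQ] at h2
  refine h2.comp ?_
  have h3 := (uy_tendsto.pow k).pow 2
  simpa [zero_pow hk.ne'] using h3

lemma pf_tendsto (hQ : QsStmt) (k : ℕ) (hk : 0 < k) :
    Tendsto (fun y : ℝ => uy y ^ (k + 1) * pf k (I * y)) atTop (𝓝 1) := by
  have ha : Tendsto (fun y : ℝ => sg (uy y ^ 2) * sg ((uy y ^ k) ^ 2)) atTop (𝓝 1) := by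
    have := (sg_tendsto hQ 1 one_pos).mul (sg_tendsto hQ k hk)
    simpa using this
  have hb := (uy_tendsto.pow (2 * (k + 1))).mul (ha.inv₀ one_ne_zero)
  have hab := ha.add hb
  have e : (1 : ℂ) + 0 ^ (2 * (k + 1)) * 1⁻¹ = 1 := by
    rw [zero_pow (by omega)]; simp
  rw [e] at hab
  refine hab.congr' ?_
  filter_upwards [eventually_gt_atTop (0 : ℝ)] with y hy
  rw [pf, sf_Iy hQ hy, sf_kIy hQ k hk hy]
  have hu := uy_ne y
  generalize sg (uy y ^ 2) = a
  generalize sg ((uy y ^ k) ^ 2) = b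
  generalize uy y = u at hu
  have huk : u ^ k ≠ 0 := pow_ne_zero _ hu
  have e1 : u ^ (k + 1) * (u⁻¹ * a * ((u ^ k)⁻¹ * b)) = a * b := by
    rw [pow_succ]; field_simp
  have e2 : (u⁻¹ * a * ((u ^ k)⁻¹ * b))⁻¹ = u ^ (k + 1) * (a * b)⁻¹ := by
    simp only [mul_inv, inv_inv, pow_succ]; ring
  rw [mul_add (u ^ (k + 1)), e1, e2]
  ring

lemma rf_tendsto (hQ : QsStmt) (k : ℕ) (hk : 0 < k) :
    Tendsto (fun y : ℝ => uy y ^ k * rf (k + 1) (I * y)) atTop (𝓝 1) := by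
  have ha : Tendsto (fun y : ℝ => sg (uy y ^ 2) / sg ((uy y ^ (k + 1)) ^ 2)) atTop (𝓝 1) := by
    have := (sg_tendsto hQ 1 one_pos).div (sg_tendsto hQ (k + 1) (by omega)) one_ne_zero
    simp only [pow_one, div_one] at this
    exact this
  have hb := (uy_tendsto.pow (2 * k)).mul ha
  have hab := (ha.inv₀ one_ne_zero).add hb
  have e : (1 : ℂ)⁻¹ + 0 ^ (2 * k) * 1 = 1 := by
    rw [zero_pow (by omega)]; simp
  rw [e] at hab
  refine hab.congr' ?_
  filter_upwards [eventually_gt_atTop (0 : ℝ)] with y hy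
  rw [rf, sf_Iy hQ hy, sf_kIy hQ (k + 1) (by omega) hy]
  have hu := uy_ne y
  generalize sg (uy y ^ 2) = a
  generalize sg ((uy y ^ (k + 1)) ^ 2) = b
  generalize uy y = u at hu
  have huk : u ^ k ≠ 0 := pow_ne_zero _ hu
  have e1 : u ^ k * (u⁻¹ * a / ((u ^ (k + 1))⁻¹ * b)) = u ^ (2 * k) * (a / b) := by
    simp only [div_eq_mul_inv, mul_inv, inv_inv, pow_succ u k]
    field_simp
    ring
  have e2 : u ^ k * ((u ^ (k + 1))⁻¹ * b / (u⁻¹ * a)) = (a / b)⁻¹ := by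
    simp only [div_eq_mul_inv, mul_inv, inv_inv, pow_succ u k]
    field_simp
  rw [mul_add, e1, e2]
  ring

lemma pf_diff (hQ : QsStmt) (k : ℕ) (hk : 0 < k) : DifferentiableOn ℂ (pf k) HH := by
  have hmap : Set.MapsTo (fun z : ℂ => (k : ℂ) * z) HH HH := fun z hz => im_mul_pos k hk hz
  have hs := sf_diff hQ
  have hS : DifferentiableOn ℂ (fun z => sf (k * z)) HH := hs.comp (by fun_prop) hmap
  exact (hs.mul hS).add ((hs.mul hS).inv fun z hz =>
    mul_ne_zero (sf_ne hQ hz) (sf_ne hQ (hmap hz)))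

lemma rf_diff (hQ : QsStmt) (k : ℕ) (hk : 0 < k) : DifferentiableOn ℂ (rf k) HH := by
  have hmap : Set.MapsTo (fun z : ℂ => (k : ℂ) * z) HH HH := fun z hz => im_mul_pos k hk hz
  have hs := sf_diff hQ
  have hS : DifferentiableOn ℂ (fun z => sf (k * z)) HH := hs.comp (by fun_prop) hmap
  exact (hs.div hS fun z hz => sf_ne hQ (hmap hz)).add (hS.div hs fun z hz => sf_ne hQ hz)

/-- relations between `A, B, C` and `p, r` -/
lemma Af_eq (hQ : QsStmt) (k : ℕ) (hk : 0 < k) {z : ℂ} (hz : 0 < z.im) :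
    Af (wf z) (wf (k * z)) = (pf k z) ^ 2 := by
  have h1 := sf_ne hQ hz
  have h2 := sf_ne hQ (im_mul_pos k hk hz)
  rw [Af, pf, wf_eq_sf, wf_eq_sf]
  field_simp
  ring

lemma Bf_eq (hQ : QsStmt) (k : ℕ) (hk : 0 < k) {z : ℂ} (hz : 0 < z.im) :
    Bf (wf z) (wf (k * z)) = pf k z * rf k z := by
  have h1 := sf_ne hQ hz
  have h2 := sf_ne hQ (im_mul_pos k hk hz)
  rw [Bf, pf, rf, wf_eq_sf, wf_eq_sf]
  field_simp
  ring

lemma Cf_eq (hQ : QsStmt) (k : ℕ) (hk : 0 < k) {z : ℂ} (hz : 0 < z.im) :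
    Cf (wf z) (wf (k * z)) = (rf k z) ^ 2 := by
  have h1 := sf_ne hQ hz
  have h2 := sf_ne hQ (im_mul_pos k hk hz)
  rw [Cf, rf, wf_eq_sf, wf_eq_sf]
  field_simp
  ring

/-- One of two factors with vanishing product vanishes on the half plane. -/
lemma factor (f g : ℂ → ℂ) (hf : DifferentiableOn ℂ f HH) (hg : DifferentiableOn ℂ g HH)
    (hfg : ∀ z, 0 < z.im → f z * g z = 0) (hne : ¬ ∀ y : ℝ, 0 < y → g (I * y) = 0) :
    ∀ z, 0 < z.im → f z = 0 := by
  rcases AnalyticOnNhd.eq_zero_or_eq_zero_of_mul_eq_zero (hf.analyticOnNhd isOpen_HH)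
    (hg.analyticOnNhd isOpen_HH) (fun z hz => hfg z hz) isPreconnected_HH with h | h
  · exact h
  · exfalso
    apply hne
    intro y hy
    exact h _ (by simpa [HH] using hy)

end Pool.Agent.H28.Pi
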